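import Pool.Agent.Q75.BS.Stm

/-!
# Project BS, job VAL: the limits of the slices are among the values at the vertices (helper259)
-/

set_option autoImplicit false

namespace Pool.Agent.Q259.BS

open Complex Set MeasureTheory Filter Topology Pool.Agent.W780.PG Pool.Agent.W780.BB
open Pool.Agent.TH103.BL Pool.Agent.Q75.BS

open scoped Real ComplexConjugate

variable {n : ℕ} {p : Fin (n + 3) → ℂ}

/-- almost every state has an orbit -/
theorem ok_ae (hp : IsConvexPolygon p) : ∀ᵐ θ : ℝ, ∀ᵐ z : ℂ, z ∈ reg p → Ok p z θ 0 := by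
  have h1 : ∀ T : ℕ, ∀ᵐ x : ℂ × ℝ, ∀ w j, uf p w (p j) ∉
      segment ℝ x.1 (x.1 + (T : ℝ) • dir x.2) := by
    intro T
    filter_upwards [Pool.Agent.W337.BB.gen_th n p hp T] with x hx using hx.1
  have h2 := ae_swap (ae_all_iff.2 h1)
  filter_upwards [h2] with θ hθ
  filter_upwards [hθ] with z hx hxr
  refine ⟨?_, ?_⟩
  · have hc : Continuous fun s : ℝ => z + s • dir θ := by fun_prop
    have h3 : ∀ᶠ s in 𝓝 (0 : ℝ), z + s • dir θ ∈ reg p :=
      hc.continuousAt ((reg_open hp).mem_nhds (by rw [zero_smul, add_zero]; exact hxr))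
    obtain ⟨δ, hδ, hball⟩ := Metric.eventually_nhds_iff.1 h3
    refine ⟨δ, hδ, fun s h4 h5 => hball ?_⟩
    rw [Real.dist_eq, sub_zero, abs_of_pos h4]
    exact h5
  · intro w j s hs heq
    obtain ⟨T, hT⟩ := exists_nat_ge s
    apply hx T w j
    rw [← heq, segment_eq_image']
    have hT0 : (0 : ℝ) < T := hs.trans_le hT
    refine ⟨s / T, ⟨by positivity, (div_le_one hT0).2 hT⟩, ?_⟩
    simp only
    rw [add_sub_cancel_left, smul_smul, div_mul_cancel₀ _ hT0.ne']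

/-- a limit at a point of a ball in which `g` is close to `a` is close to `a` -/
theorem lim_near {g : ℂ → ℝ} {z₀ : ℂ} {ρ a η : ℝ} (h : ∀ᵐ z' : ℂ, ‖z' - z₀‖ < ρ → |g z' - a| ≤ η)
    {z : ℂ} (hz : ‖z - z₀‖ < ρ) {c : ℝ} (hc : Lim g z c) : |a - c| ≤ η := by
  refine le_of_forall_pos_le_add fun ε hε => ?_
  obtain ⟨ρ', hρ', h'⟩ := hc ε hε
  have hd := Measure.dense_of_ae (h.and h')
  have hr : 0 < min ρ' (ρ - ‖z - z₀‖) := lt_min hρ' (by linarith)
  obtain ⟨y, ⟨hy1, hy2⟩, hy⟩ := hd.exists_mem_open Metric.isOpen_ball ⟨z, Metric.mem_ball_self hr⟩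
  rw [Metric.mem_ball, dist_eq_norm] at hy
  have h3 := hy.trans_le (min_le_left _ _)
  have h4 := hy.trans_le (min_le_right _ _)
  have h5 : ‖y - z₀‖ < ρ := by
    calc ‖y - z₀‖ = ‖(y - z) + (z - z₀)‖ := by congr 1; ring
      _ ≤ ‖y - z‖ + ‖z - z₀‖ := norm_add_le _ _
      _ < ρ := by linarith
  have h6 := hy1 h5
  have h7 := hy2 h3
  have h8 : a - c = -(g y - a) + (g y - c) := by ring
  rw [h8]
  calc |-(g y - a) + (g y - c)| ≤ |-(g y - a)| + |g y - c| := abs_add_le _ _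
    _ ≤ η + ε := by rw [abs_neg]; linarith

/-- properties of almost all directions hold for the directions after reflections -/
theorem dir_ae (hp : IsConvexPolygon p) {P : ℝ → Prop} (h : ∀ᵐ θ : ℝ, P θ) (w : List (Fin (n + 3))) :
    ∀ᵐ θ : ℝ, ∀ z : ℂ, P (fd p w (z, θ)).2 := by
  obtain ⟨e, c, he, hec⟩ := (hR n p hp).2.2.2.2.2.2.2.2.2.2.1 w
  have h1 : ∀ᵐ θ : ℝ, P (e * θ + c) := by
    have h2 : ∀ᵐ θ : ℝ, P (θ + c) :=
      (measurePreserving_add_right (volume : Measure ℝ) c).quasiMeasurePreserving.ae h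
    rcases neg_one_pow_eq_or ℝ w.length with h3 | h3
    · rw [he, h3]
      simpa using h2
    · have h4 : ∀ᵐ θ : ℝ, P (-θ + c) :=
        (Measure.measurePreserving_neg (volume : Measure ℝ)).quasiMeasurePreserving.ae h2
      rw [he, h3]
      simpa using h4
  filter_upwards [h1] with θ hθ z
  rw [(hec z θ).1]
  exact hθ

theorem t_VAL : S_FOL → S_HIT → S_VAL := by
  intro hFOL hHIT n p hp f hI hL c hc
  have hdir : ∀ᵐ θ : ℝ, ∀ (w : List (Fin (n + 3))) (j : Fin (n + 3)), ∀ z : ℂ,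
      VLim p (sli f (fd p w (z, θ)).2) j (c j) := by
    rw [ae_all_iff]
    intro w
    rw [ae_all_iff]
    intro j
    exact dir_ae hp (hc j) w
  have hall : ∀ᵐ θ : ℝ, ∀ m : ℕ, ∀ z ∈ reg p, ∀ (u : ℕ → Fin (n + 3)) (t : ℕ → ℝ),
      Orb p z θ u t → ∃ K s j, tp t K < s ∧ s < t K ∧
      ‖ps p z θ u K s - p j‖ < 1 / ((m : ℝ) + 1) := by
    rw [ae_all_iff]
    intro m
    exact allz hp (by positivity)
  filter_upwards [hL, hdir, hall, ok_ae hp] with θ h1 h2 h3 h4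
  -- the data for a limit different from all `c j`
  have hdata : ∀ z ∈ reg p, ∀ a, Lim (sli f θ) z a → (∀ j, a ≠ c j) → ∃ ρ δ : ℝ, 0 < ρ ∧ 0 < δ ∧
      Metric.ball z ρ ⊆ reg p ∧ (∀ᵐ z' : ℂ, ‖z' - z‖ < ρ → |sli f θ z' - a| ≤ δ / 4) ∧
      ∀ j, δ ≤ |a - c j| := by
    intro z hz a ha hne
    obtain ⟨δ, hδ, hδ0⟩ : ∃ δ : ℝ, (∀ j, δ ≤ |a - c j|) ∧ 0 < δ := by
      have h5 : ∀ᶠ δ in 𝓝[>] (0 : ℝ), ∀ j, δ ≤ |a - c j| := by
        rw [eventually_all]
        intro j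
        have h6 : 0 < |a - c j| := abs_pos.2 (sub_ne_zero.2 (hne j))
        filter_upwards [Ioo_mem_nhdsGT h6] with d hd using hd.2.le
      obtain ⟨δ, h6, h7⟩ := (h5.and self_mem_nhdsWithin).exists
      exact ⟨δ, h6, h7⟩
    obtain ⟨ρ0, hρ0, hρ0'⟩ := ha (δ / 4) (by linarith)
    obtain ⟨ρ1, hρ1, hρ1'⟩ := Metric.isOpen_iff.1 (reg_open hp) z hz
    refine ⟨min ρ0 ρ1, δ, lt_min hρ0 hρ1, hδ0,
      (Metric.ball_subset_ball (min_le_right _ _)).trans hρ1', ?_, hδ⟩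
    filter_upwards [hρ0'] with z' hz' h
    exact hz' (h.trans_le (min_le_left _ _))
  have key : ∀ z ∈ reg p, Ok p z θ 0 → ∀ a, Lim (sli f θ) z a → ∃ j, a = c j := by
    intro z hz hOk a ha
    by_contra hcon
    push Not at hcon
    obtain ⟨ρ, δ, hρ, hδ, hball, hclose, hfar⟩ := hdata z hz a ha hcon
    obtain ⟨u, t, O⟩ := exists_orb hp hOk
    have hfol := hFOL n p hp z θ u t O ρ hρ hball (by
      intro z' hz' K s j hs hfp hch
      have hlim : Lim (sli f θ) z' (c j) :=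
        hHIT n p hp f hI _ z' θ s j (c j) (hball hz') hfp hch (h2 _ j _)
      rw [Metric.mem_ball, dist_eq_norm] at hz'
      have h5 := lim_near hclose hz' hlim
      have h6 := hfar j
      linarith)
    obtain ⟨m, hm⟩ := exists_nat_gt (1 / ρ)
    have hm1 : 1 / ((m : ℝ) + 1) < ρ := by
      rw [div_lt_iff₀ (by positivity)]
      rw [div_lt_iff₀ hρ] at hm
      linarith
    obtain ⟨K, s, j, hs1, hs2, hs3⟩ := h3 m z hz u t O
    have h5 := hfol K s j hs1 hs2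
    linarith
  intro z hz
  obtain ⟨a, ha⟩ := h1 z hz
  by_contra hcon
  push Not at hcon
  have hne : ∀ j, a ≠ c j := by
    rintro j rfl
    exact hcon j ha
  obtain ⟨ρ, δ, hρ, hδ, hball, hclose, hfar⟩ := hdata z hz a ha hne
  obtain ⟨y, hy1, hy⟩ := (Measure.dense_of_ae h4).exists_mem_open Metric.isOpen_ball
    ⟨z, Metric.mem_ball_self hρ⟩
  have hyr := hball hy
  obtain ⟨a', ha'⟩ := h1 y hyr
  obtain ⟨j, rfl⟩ := key y hyr (hy1 hyr) a' ha'
  rw [Metric.mem_ball, dist_eq_norm] at hy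
  have h5 := lim_near hclose hy ha'
  have h6 := hfar j
  linarith

end Pool.Agent.Q259.BS
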